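import Pool.Agent.H55.Rad3

set_option autoImplicit false

namespace Pool.Agent.Results.MP_919c6d_an.Decreasing

open MeasureTheory Filter Topology Pool.Agent.H55.RadDefs

theorem result : ∃ f : (ℕ → UnitAddCircle) → ℂ, Measurable f ∧ IsHinf f ∧
    ∀ᵐ θ ∂mT, ∃ r : ℕ → ℕ → ℝ, (∀ k n, 0 ≤ r k n ∧ r k n < 1) ∧
      (∀ k, ∃ m, ∀ n, m ≤ n → r k n = 0) ∧ (∀ k n, r k n ≤ r (k + 1) n) ∧
      (∀ n, Tendsto (fun k => r k n) atTop (𝓝 1)) ∧ (∀ k n, r k (n + 1) ≤ r k n) ∧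
      ¬ Tendsto (fun k => rad f (r k) θ) atTop (𝓝 (f θ)) := by
  obtain ⟨f, fm, fH, f1, r, r0, r1, r2, r3, h⟩ := Pool.Agent.H55.Rad.main
  refine ⟨f, fm, fH, ?_⟩
  filter_upwards [f1, h] with θ h1 h2
  have (k : ℕ) : ∃ j, ‖rad f (r j) θ‖ < 1 / 2 ∧ k < j ∧ ∀ n, r k n ≤ r j n := by
    obtain ⟨m, hm⟩ := r2 k
    refine ((h2 _ one_half_pos).and_eventually ((eventually_gt_atTop k).and
      ((((Finset.range m).eventually_all).2 fun n _ =>
        (r3 n).eventually (le_mem_nhds (r0 k n).2)).mono fun j hj n => ?_))).exists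
    rcases lt_or_ge n m with c | c
    exacts [hj n (Finset.mem_range.2 c), (hm n c).trans_le (r0 j n).1]
  choose g g1 g2 g3 using this
  have e (j : ℕ) := Function.iterate_succ_apply' g j 0
  have s : StrictMono fun j => g^[j] 0 := strictMono_nat_of_lt_succ fun j => e j ▸ g2 _
  refine ⟨fun j => r (g^[j] 0), fun _ => r0 _, fun _ => r2 _, fun j n => (g3 _ n).trans_eq (congrArg (r · n) (e j).symm),
    fun n => (r3 n).comp s.tendsto_atTop, fun k n => r1 _ n.le_succ, fun c => ?_⟩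
  obtain ⟨k, h4⟩ := (((tendsto_add_atTop_iff_nat 1).2 c).norm.eventually
    (lt_mem_nhds (one_half_lt_one.trans_eq h1.symm))).exists
  exact h4.not_gt ((congrArg (fun j => ‖rad f (r j) θ‖) (e k)).trans_lt (g1 _))

end Pool.Agent.Results.MP_919c6d_an.Decreasing
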